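import Pool.Agent.Helper37.SU.Stmts

set_option autoImplicit false

/-!
AN2: samples of the blocks.
-/

namespace Pool.Agent.Helper37.SU

open MeasureTheory Finset
open scoped ENNReal Classical

theorem an2_fk_zero (r : ℝ) (b : ℕ) (t : UnitAddCircle) : fk r b 0 t = 0 := by
  unfold fk
  apply Finset.sum_eq_zero
  intro k _
  simp [dkc]

theorem an2_ev_pos (b j : ℕ) (t : UnitAddCircle) : 0 < ev b j t := by
  unfold ev
  positivity

theorem an2_ev_succ (b j : ℕ) (hb : 2 ≤ b) (t : UnitAddCircle) :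
    ev b j t ≤ (b : ℝ) ^ 2 * ev b (j + 1) t := by
  unfold ev
  have hb' : (1 : ℝ) ≤ b := by exact_mod_cast (by omega : 1 ≤ b)
  have hx : 0 ≤ ‖t‖ := norm_nonneg _
  have hp : 0 < (b : ℝ) ^ j := by positivity
  set X : ℝ := (b : ℝ) ^ j * ‖t‖ with hX
  have hX0 : 0 ≤ X := by positivity
  have h1 : (b : ℝ) ^ (j + 1) * ‖t‖ = b * X := by rw [hX, pow_succ]; ring
  rw [h1]
  have h2 : (1 + b * X) ^ 2 ≤ (b : ℝ) ^ 2 * (1 + X) ^ 2 := by
    rw [← mul_pow]
    apply pow_le_pow_left₀ (by positivity)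
    nlinarith
  have h3 : 0 < (1 + (b : ℝ) * X) ^ 2 := by positivity
  have h4 : 0 < (1 + X) ^ 2 := by positivity
  rw [inv_eq_one_div, inv_eq_one_div, ← mul_div_assoc, mul_one, div_le_div_iff₀ h4 h3]
  linarith

theorem an2_factor (r : ℝ) (b : ℕ) (hb : 2 ≤ b) (h1 : ST_FKB) : ∃ K : ℝ, 0 < K ∧
    ∀ (s : ℕ) (t : UnitAddCircle), ‖fk r b (s - 1) t‖ ≤ K * (b : ℝ) ^ ((1 - r) * s) * ev b s t := by
  obtain ⟨C, hC, h⟩ := h1 r b hb
  have hb0 : (0 : ℝ) < b := by exact_mod_cast (by omega : 0 < b)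
  refine ⟨C * (b : ℝ) ^ (-(1 - r)) * (b : ℝ) ^ 2, by positivity, ?_⟩
  intro s t
  rcases Nat.eq_zero_or_pos s with hs | hs
  · subst hs
    have h0 : fk r b (0 - 1) t = 0 := an2_fk_zero r b t
    rw [h0, norm_zero]
    have := an2_ev_pos b 0 t
    positivity
  · obtain ⟨j, rfl⟩ : ∃ j, s = j + 1 := ⟨s - 1, by omega⟩
    have e1 : j + 1 - 1 = j := by omega
    rw [e1]
    refine (h j t).trans ?_
    have h2 := an2_ev_succ b j hb t
    have h3 : (b : ℝ) ^ ((1 - r) * j) =
        (b : ℝ) ^ (-(1 - r)) * (b : ℝ) ^ ((1 - r) * ((j + 1 : ℕ) : ℝ)) := by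
      rw [← Real.rpow_add hb0]
      congr 1
      push_cast
      ring
    have h4 : 0 < C * (b : ℝ) ^ ((1 - r) * j) := by positivity
    calc C * (b : ℝ) ^ ((1 - r) * j) * ev b j t
        ≤ C * (b : ℝ) ^ ((1 - r) * j) * ((b : ℝ) ^ 2 * ev b (j + 1) t) :=
          mul_le_mul_of_nonneg_left h2 h4.le
      _ = _ := by rw [h3]; ring

theorem an2_fk_cont (r : ℝ) (b j : ℕ) : Continuous (fk r b j) := by
  unfold fk
  exact continuous_finsetSum _ fun k _ => continuous_const.mul (map_continuous (fourier k))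

theorem an2_tp_cont {d : ℕ} (Λ : Finset (Fin d → ℤ)) (c : (Fin d → ℤ) → ℂ) :
    Continuous (tp Λ c) := by
  unfold tp
  refine continuous_finsetSum _ fun k _ => continuous_const.mul ?_
  exact continuous_finsetProd _ fun i _ => (map_continuous (fourier (k i))).comp (continuous_apply i)

theorem an2_prob (d : ℕ) : IsProbabilityMeasure (haar d) := by
  unfold haar haar1
  infer_instance

theorem an2_integrable {d : ℕ} {E : Type*} [NormedAddCommGroup E] [SecondCountableTopology E]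
    (f : TT d → E) (hf : Continuous f) : Integrable f (haar d) := by
  have := an2_prob d
  exact hf.integrable_of_hasCompactSupport (HasCompactSupport.of_compactSpace f)

theorem an2_memLp {d : ℕ} (f : TT d → ℂ) (hf : Continuous f) (p : ℝ≥0∞) :
    MemLp f p (haar d) := by
  have := an2_prob d
  exact hf.memLp_of_hasCompactSupport (HasCompactSupport.of_compactSpace f)

theorem an2_hoelder {d : ℕ} (f g : TT d → ℂ) (hf : Continuous f) (hg : Continuous g) (p q : ℝ)
    (hpq : p.HolderConjugate q) : ‖∫ y, f y * g y ∂haar d‖ ≤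
      (eLpNorm f (ENNReal.ofReal p) (haar d)).toReal *
        (eLpNorm g (ENNReal.ofReal q) (haar d)).toReal := by
  have := an2_prob d
  have hp0 : 0 < p := hpq.pos
  have hq0 : 0 < q := hpq.symm.pos
  have hfm := an2_memLp f hf (ENNReal.ofReal p)
  have hgm := an2_memLp g hg (ENNReal.ofReal q)
  have key := MeasureTheory.integral_mul_norm_le_Lp_mul_Lq hpq hfm hgm
  have e1 : (eLpNorm f (ENNReal.ofReal p) (haar d)).toReal =
      (∫ y, ‖f y‖ ^ p ∂haar d) ^ (1 / p) := by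
    rw [hfm.eLpNorm_eq_integral_rpow_norm (by simpa using hp0) ENNReal.ofReal_ne_top,
      ENNReal.toReal_ofReal (by positivity), ENNReal.toReal_ofReal hp0.le, one_div]
  have e2 : (eLpNorm g (ENNReal.ofReal q) (haar d)).toReal =
      (∫ y, ‖g y‖ ^ q ∂haar d) ^ (1 / q) := by
    rw [hgm.eLpNorm_eq_integral_rpow_norm (by simpa using hq0) ENNReal.ofReal_ne_top,
      ENNReal.toReal_ofReal (by positivity), ENNReal.toReal_ofReal hq0.le, one_div]
  rw [e1, e2]
  refine (norm_integral_le_integral_norm _).trans (le_trans (le_of_eq ?_) key)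
  refine integral_congr_ae (Filter.Eventually.of_forall fun y => ?_)
  simp only [norm_mul]

theorem an2_lp_mul {ι : Type} (u : ℝ) (S : Finset ι) (a : ℝ) (ha : 0 ≤ a) (hu : 0 < u)
    (y : ι → ℂ) : lp u S (fun i => y i * (a : ℂ)) = a * lp u S y := by
  unfold lp
  have h1 : ∀ i ∈ S, ‖y i * (a : ℂ)‖ ^ u = a ^ u * ‖y i‖ ^ u := by
    intro i _
    rw [norm_mul, Complex.norm_real, Real.norm_of_nonneg ha, mul_comm,
      Real.mul_rpow ha (norm_nonneg _)]
  rw [Finset.sum_congr rfl h1, ← Finset.mul_sum, Real.mul_rpow (by positivity)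
    (Finset.sum_nonneg fun i _ => by positivity), ← Real.rpow_mul ha, mul_one_div_cancel hu.ne',
    Real.rpow_one]

theorem an2_pt (b j k a : ℕ) (hb : 2 ≤ b) : pt b (j + k) (a * b ^ k) = pt b j a := by
  unfold pt
  have hb0 : (0 : ℝ) < b := by exact_mod_cast (by omega : 0 < b)
  congr 1
  push_cast
  rw [pow_add]
  field_simp

/-- refinement of a box -/
def an2_beta {d : ℕ} (b : ℕ) (τ : Fin d → ℕ) (B : Bo d) : Bo d :=
  (fun i => B.1 i + τ i, fun i => B.2 i * b ^ τ i)

theorem an2_beta_mem {d b l : ℕ} (hb : 2 ≤ b) (τ : Fin d → ℕ) (B : Bo d) (hB : B ∈ lev b d l) :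
    an2_beta b τ B ∈ lev b d (l + ∑ i, τ i) := by
  rw [mem_lev] at hB ⊢
  refine ⟨?_, ?_⟩
  · unfold an2_beta
    simp only
    rw [Finset.sum_add_distrib, hB.1]
  · intro i
    unfold an2_beta
    simp only
    rw [pow_add]
    exact Nat.mul_lt_mul_of_pos_right (hB.2 i) (by positivity)

theorem an2_beta_inj {d b : ℕ} (hb : 2 ≤ b) (τ : Fin d → ℕ) :
    Function.Injective (an2_beta (d := d) b τ) := by
  intro B B' h
  unfold an2_beta at h
  have h1 := congrArg Prod.fst h
  have h2 := congrArg Prod.snd h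
  simp only at h1 h2
  refine Prod.ext (funext fun i => ?_) (funext fun i => ?_)
  · have h3 : B.1 i + τ i = B'.1 i + τ i := congrFun h1 i
    omega
  · have h3 : B.2 i * b ^ τ i = B'.2 i * b ^ τ i := congrFun h2 i
    exact Nat.eq_of_mul_eq_mul_right (by positivity) h3

theorem an2_EV {d b : ℕ} (hb : 2 ≤ b) (τ : Fin d → ℕ) (B : Bo d) (y : TT d) :
    EV b (an2_beta b τ B) y = ∏ i, ev b (B.1 i + τ i) (ptv b B i - y i) := by
  unfold EV an2_beta
  refine Finset.prod_congr rfl fun i _ => ?_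
  simp only
  rw [an2_pt b _ _ _ hb]
  unfold ev ptv
  rw [norm_sub_rev]

theorem an2_prod_bound {d b l : ℕ} (r : ℝ) (hb : 2 ≤ b) (K : ℝ)
    (h : ∀ (s : ℕ) (t : UnitAddCircle),
      ‖fk r b (s - 1) t‖ ≤ K * (b : ℝ) ^ ((1 - r) * s) * ev b s t)
    (τ : Fin d → ℕ) (B : Bo d) (hB : B ∈ lev b d l) (y : TT d) :
    ‖∏ i, fk r b (B.1 i + τ i - 1) (ptv b B i - y i)‖ ≤
      (K ^ d * (b : ℝ) ^ ((1 - r) * ((l : ℝ) + ((∑ i, τ i : ℕ) : ℝ)))) *
        EV b (an2_beta b τ B) y := by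
  have hb0 : (0 : ℝ) < b := by exact_mod_cast (by omega : 0 < b)
  rw [norm_prod, an2_EV hb]
  have h1 : ∏ i, ‖fk r b (B.1 i + τ i - 1) (ptv b B i - y i)‖ ≤
      ∏ i, (K * (b : ℝ) ^ ((1 - r) * ((B.1 i + τ i : ℕ) : ℝ)) *
        ev b (B.1 i + τ i) (ptv b B i - y i)) :=
    Finset.prod_le_prod (fun i _ => norm_nonneg _) (fun i _ => h _ _)
  refine h1.trans (le_of_eq ?_)
  rw [Finset.prod_mul_distrib, Finset.prod_mul_distrib, Finset.prod_const, Finset.card_univ,
    Fintype.card_fin, ← Real.rpow_sum_of_pos hb0]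
  congr 3
  rw [← Finset.mul_sum]
  congr 1
  rw [← Nat.cast_sum, Finset.sum_add_distrib, (mem_lev.1 hB).1]
  push_cast
  ring

theorem st_AN2 (h1 : ST_FKB) (h2 : ST_SYN) (h3 : ST_AN1) (h4 : ST_DLV) : ST_AN2 := by
  intro b d p v r hb hp hpv
  have hb0 : (0 : ℝ) < b := by exact_mod_cast (by omega : 0 < b)
  have hv : 1 < v := hp.trans hpv
  set p' : ℝ := p / (p - 1) with hp'
  set v' : ℝ := v / (v - 1) with hv'
  have hpc : p.HolderConjugate p' := Real.HolderConjugate.conjExponent hp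
  have hvc : v.HolderConjugate v' := Real.HolderConjugate.conjExponent hv
  have hv1 : 1 < v' := hvc.symm.lt
  have hvp : v' < p' := by
    rw [hp', hv', div_lt_div_iff₀ (by linarith) (by linarith)]
    nlinarith
  obtain ⟨C2, hC2, H2⟩ := h2 b d v' p' hb hv1.le hvp
  obtain ⟨K, hK, hKb⟩ := an2_factor r b hb h1
  refine ⟨C2 * K ^ d, by positivity, ?_⟩
  intro l τ Λ c
  set L : ℝ := (l : ℝ) + ((∑ i, τ i : ℕ) : ℝ) with hL
  set N : ℝ := (eLpNorm (tp Λ c) (ENNReal.ofReal p) (haar d)).toReal with hN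
  have hN0 : 0 ≤ N := ENNReal.toReal_nonneg
  refine h4 (Bo d) v _ (lev b d l) _ hv (by positivity) ?_
  intro w
  -- the kernel
  set P : Bo d → TT d → ℂ := fun B y => ∏ i, fk r b (B.1 i + τ i - 1) (ptv b B i - y i) with hP
  have hPc : ∀ B, Continuous (P B) := by
    intro B
    rw [hP]
    refine continuous_finsetProd _ fun i _ => ?_
    have hc : Continuous fun y : TT d => ptv b B i - y i := by
      have hy : Continuous fun y : TT d => y i := continuous_apply i
      fun_prop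
    exact (an2_fk_cont r b _).comp hc
  set G : TT d → ℂ := fun y => ∑ B ∈ lev b d l, w B * P B y with hG
  have hGc : Continuous G := continuous_finsetSum _ fun B _ => continuous_const.mul (hPc B)
  have hrep : ∑ B ∈ lev b d l, w B * dl r b (fun i => B.1 i + τ i - 1) Λ c (ptv b B) =
      ∫ y, tp Λ c y * G y ∂haar d := by
    have e1 : ∀ B ∈ lev b d l, w B * dl r b (fun i => B.1 i + τ i - 1) Λ c (ptv b B) =
        ∫ y, tp Λ c y * (w B * P B y) ∂haar d := by
      intro B _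
      rw [h3 b d r _ Λ c _ hb, ← integral_const_mul]
      refine integral_congr_ae (Filter.Eventually.of_forall fun y => ?_)
      simp only [hP]
      ring
    rw [Finset.sum_congr rfl e1, ← integral_finsetSum]
    · refine integral_congr_ae (Filter.Eventually.of_forall fun y => ?_)
      simp only [hG, Finset.mul_sum]
    · intro B _
      exact an2_integrable _ ((an2_tp_cont Λ c).mul (continuous_const.mul (hPc B)))
  rw [hrep]
  refine (an2_hoelder _ _ (an2_tp_cont Λ c) hGc p p' hpc).trans ?_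
  -- the norm of G
  set M : ℝ := K ^ d * (b : ℝ) ^ ((1 - r) * L) with hM
  have hM0 : 0 < M := by positivity
  have hsyn := H2 (l + ∑ i, τ i) (lev b d l) (an2_beta b τ) (fun B => w B * (M : ℂ))
    (fun B y => P B y / (M : ℂ)) (fun B hB => an2_beta_mem hb τ B hB)
    ((an2_beta_inj hb τ).injOn) (by
      intro B hB y
      rw [norm_div, Complex.norm_real, Real.norm_of_nonneg hM0.le, div_le_iff₀ hM0, mul_comm]
      exact an2_prod_bound r hb K hKb τ B hB y)
  have hGe : (fun t : TT d => ∑ B ∈ lev b d l, (w B * (M : ℂ)) * (P B t / (M : ℂ))) = G := by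
    funext t
    rw [hG]
    refine Finset.sum_congr rfl fun B _ => ?_
    have : (M : ℂ) ≠ 0 := by exact_mod_cast hM0.ne'
    field_simp
  rw [hGe, an2_lp_mul v' _ M hM0.le (by linarith) w] at hsyn
  have hlp : 0 ≤ lp v' (lev b d l) w := by
    unfold lp
    exact Real.rpow_nonneg (Finset.sum_nonneg fun i _ => by positivity) _
  have hG2 : (eLpNorm G (ENNReal.ofReal p') (haar d)).toReal ≤
      C2 * (b : ℝ) ^ (-(((l + ∑ i, τ i : ℕ) : ℝ) / p')) * (M * lp v' (lev b d l) w) :=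
    ENNReal.toReal_le_of_le_ofReal (by positivity) hsyn
  have hexp : (b : ℝ) ^ (-(((l + ∑ i, τ i : ℕ) : ℝ) / p')) * (b : ℝ) ^ ((1 - r) * L) =
      (b : ℝ) ^ (-(L * (r - 1 / p))) := by
    rw [← Real.rpow_add hb0]
    congr 1
    have hl : ((l + ∑ i, τ i : ℕ) : ℝ) = L := by
      rw [hL]; push_cast; ring
    rw [hl]
    have hpp : p'⁻¹ = 1 - p⁻¹ := by
      have := hpc.inv_add_inv_eq_one
      linarith
    rw [div_eq_mul_inv, hpp]
    ring
  calc N * (eLpNorm G (ENNReal.ofReal p') (haar d)).toReal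
      ≤ N * (C2 * (b : ℝ) ^ (-(((l + ∑ i, τ i : ℕ) : ℝ) / p')) *
          (M * lp v' (lev b d l) w)) := mul_le_mul_of_nonneg_left hG2 hN0
    _ = C2 * K ^ d * ((b : ℝ) ^ (-(((l + ∑ i, τ i : ℕ) : ℝ) / p')) *
          (b : ℝ) ^ ((1 - r) * L)) * N * lp v' (lev b d l) w := by rw [hM]; ring
    _ = _ := by rw [hexp]

end Pool.Agent.Helper37.SU
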